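import Pool.Agent.MP_e6e7b2_al.Defs

-- part MP_e6e7b2_al.Counter
section

/-!
The counterexample `P = u ^ 3`, `u = b - c ^ 2 / (1 - a)`, with `a = ⟨α,z⟩`, `b = ⟨β,z⟩`,
`c = ⟨γ,z⟩`.
-/

namespace Pool.Agent.MP_e6e7b2_al

open MvPowerSeries

variable {n : ℕ}

/-- The linear form with coefficients `α`. -/
noncomputable def lin (α : Fin n → ℂ) : MvPowerSeries (Fin n) ℂ := ∑ i, C (α i) * X i

lemma pderiv_lin (α : Fin n → ℂ) (i : Fin n) : pderiv ℂ i (lin α) = C (α i) := by
  unfold lin
  rw [map_sum, Finset.sum_eq_single i]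
  · simp [Derivation.leibniz]
  · intro j _ hj
    simp [Derivation.leibniz, pderiv_X_of_ne hj]
  · simp

lemma constantCoeff_lin (α : Fin n → ℂ) : constantCoeff (lin α) = 0 := by
  simp [lin]

lemma subst_lin (α : Fin n → ℂ) {G : Fin n → MvPowerSeries (Fin n) ℂ} (hG : HasSubst G) :
    subst G (lin α) = ∑ i, C (α i) * G i := by
  unfold lin
  rw [← substAlgHom_apply hG, map_sum]
  refine Finset.sum_congr rfl fun i _ => ?_
  rw [map_mul, substAlgHom_apply, substAlgHom_apply, subst_C, subst_X hG]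

section
variable (α β γ : Fin n → ℂ)

noncomputable def ww : MvPowerSeries (Fin n) ℂ := (1 - lin α)⁻¹
noncomputable def ss : MvPowerSeries (Fin n) ℂ := lin γ * ww α
noncomputable def uu : MvPowerSeries (Fin n) ℂ := lin β - lin γ * ss α γ
noncomputable def PP : MvPowerSeries (Fin n) ℂ := uu α β γ ^ 3
noncomputable def du (i : Fin n) : MvPowerSeries (Fin n) ℂ :=
  C (β i) - 2 * C (γ i) * ss α γ - C (α i) * ss α γ ^ 2

lemma ww_mul : ww α * (1 - lin α) = 1 :=
  MvPowerSeries.inv_mul_cancel _ (by simp [constantCoeff_lin])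

lemma pderiv_ww (i : Fin n) : pderiv ℂ i (ww α) = ww α ^ 2 * C (α i) := by
  unfold ww
  rw [pderiv_inv', map_sub, pderiv_one, pderiv_lin]
  ring

lemma pderiv_ss (i : Fin n) :
    pderiv ℂ i (ss α γ) = ww α * (C (γ i) + C (α i) * ss α γ) := by
  unfold ss
  rw [Derivation.leibniz, pderiv_ww, pderiv_lin, smul_eq_mul, smul_eq_mul]
  ring

lemma pderiv_uu (i : Fin n) : pderiv ℂ i (uu α β γ) = du α β γ i := by
  unfold uu du
  rw [map_sub, Derivation.leibniz, pderiv_ss, pderiv_lin, pderiv_lin, smul_eq_mul, smul_eq_mul]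
  have : lin γ * ww α = ss α γ := rfl
  linear_combination (-(C (γ i)) - C (α i) * ss α γ) * this

lemma pderiv_PP (i : Fin n) : pderiv ℂ i (PP α β γ) = 3 * uu α β γ ^ 2 * du α β γ i := by
  unfold PP
  rw [pderiv_pow, pderiv_uu]
  norm_num

lemma pderiv_two (i : Fin n) : pderiv ℂ i (2 : MvPowerSeries (Fin n) ℂ) = 0 := by
  have : (2 : MvPowerSeries (Fin n) ℂ) = C 2 := by simp [map_ofNat]
  rw [this, pderiv_C]

lemma pderiv_three (i : Fin n) : pderiv ℂ i (3 : MvPowerSeries (Fin n) ℂ) = 0 := by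
  have : (3 : MvPowerSeries (Fin n) ℂ) = C 3 := by simp [map_ofNat]
  rw [this, pderiv_C]

lemma pderiv_du (i j : Fin n) : pderiv ℂ i (du α β γ j) =
    -2 * ww α * (C (γ j) + C (α j) * ss α γ) * (C (γ i) + C (α i) * ss α γ) := by
  unfold du
  simp only [map_sub, Derivation.leibniz, pderiv_pow, pderiv_C, pderiv_ss, pderiv_two, smul_eq_mul]
  push_cast
  ring

lemma hes_PP (i j : Fin n) : hes (PP α β γ) i j =
    6 * uu α β γ * du α β γ i * du α β γ j - 6 * uu α β γ ^ 2 * ww α *
      (C (γ j) + C (α j) * ss α γ) * (C (γ i) + C (α i) * ss α γ) := by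
  unfold hes
  rw [Matrix.of_apply, pderiv_PP]
  simp only [Derivation.leibniz, pderiv_pow, pderiv_three, pderiv_du, pderiv_uu, smul_eq_mul]
  push_cast
  ring

lemma constantCoeff_uu : constantCoeff (uu α β γ) = 0 := by
  simp [uu, constantCoeff_lin]

lemma constantCoeff_ss : constantCoeff (ss α γ) = 0 := by
  simp [ss, constantCoeff_lin]

lemma sum_C_mul_du (δ : Fin n → ℂ) :
    ∑ i, C (δ i) * du α β γ i = C (∑ i, δ i * β i) - 2 * C (∑ i, δ i * γ i) * ss α γ
      - C (∑ i, δ i * α i) * ss α γ ^ 2 := by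
  simp only [map_sum, map_mul, Finset.mul_sum, Finset.sum_mul, ← Finset.sum_sub_distrib]
  refine Finset.sum_congr rfl fun i _ => ?_
  unfold du
  ring

variable {α β γ}
variable (haa : ∑ i, α i * α i = 0) (hbb : ∑ i, β i * β i = 0) (hcc : ∑ i, γ i * γ i = 1)
  (hab : ∑ i, α i * β i = 2) (hac : ∑ i, α i * γ i = 0) (hbc : ∑ i, β i * γ i = 0)

include haa hbb hcc hab hac hbc in
lemma subst_invariant (e : MvPowerSeries (Fin n) ℂ) {G : Fin n → MvPowerSeries (Fin n) ℂ}
    (hG : HasSubst G) (hGe : ∀ i, G i = X i + e * du α β γ i) :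
    subst G (ss α γ) = ss α γ ∧ subst G (uu α β γ) = uu α β γ := by
  have hba : ∑ i, β i * α i = 2 := by rw [← hab]; simp [mul_comm]
  have hca : ∑ i, γ i * α i = 0 := by rw [← hac]; simp [mul_comm]
  have hcb : ∑ i, γ i * β i = 0 := by rw [← hbc]; simp [mul_comm]
  have key : ∀ δ : Fin n → ℂ, subst G (lin δ) = lin δ + e * ∑ i, C (δ i) * du α β γ i := by
    intro δ
    rw [subst_lin δ hG, lin, Finset.mul_sum, ← Finset.sum_add_distrib]
    refine Finset.sum_congr rfl fun i _ => ?_
    rw [hGe]; ring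
  have h2 : (C (2 : ℂ) : MvPowerSeries (Fin n) ℂ) = 2 := by simp [map_ofNat]
  have ha : subst G (lin α) = lin α + 2 * e := by
    rw [key, sum_C_mul_du, hab, hac, haa, h2]; simp; ring
  have hb : subst G (lin β) = lin β - 2 * e * ss α γ ^ 2 := by
    rw [key, sum_C_mul_du, hbb, hbc, hba, h2]; simp; ring
  have hc : subst G (lin γ) = lin γ - 2 * e * ss α γ := by
    rw [key, sum_C_mul_du, hcb, hcc, hca]; simp; ring
  have hw : subst G (ww α) * (1 - (lin α + 2 * e)) = 1 := by
    have := congrArg (substAlgHom (R := ℂ) hG) (ww_mul α)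
    rw [map_mul, map_sub, map_one, substAlgHom_apply, substAlgHom_apply, ha] at this
    exact this
  have hw0 := ww_mul α
  have hs0 : lin γ * ww α = ss α γ := rfl
  have hs : subst G (ss α γ) = ss α γ := by
    conv_lhs => rw [ss, subst_mul hG, hc]
    linear_combination ss α γ * hw - subst G (ww α) * lin γ * hw0
      + subst G (ww α) * (1 - lin α) * hs0
  refine ⟨hs, ?_⟩
  conv_lhs => rw [uu, subst_sub hG, subst_mul hG, hs, hb, hc]
  rw [uu]; ring

include haa hbb hcc hab hac hbc in
lemma subst_grad (e : MvPowerSeries (Fin n) ℂ) {G : Fin n → MvPowerSeries (Fin n) ℂ}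
    (hG : HasSubst G) (hGe : ∀ i, G i = X i + e * du α β γ i) (i : Fin n) :
    subst G (grad (PP α β γ) i) = grad (PP α β γ) i := by
  obtain ⟨hs, hu⟩ := subst_invariant haa hbb hcc hab hac hbc e hG hGe
  unfold grad
  rw [pderiv_PP, du, ← substAlgHom_apply hG]
  simp only [map_mul, map_sub, map_pow, map_ofNat, substAlgHom_apply, subst_C, hs, hu]

include haa hbb hcc hab hac hbc in
theorem selfInverting_PP : IsSelfInverting (PP α β γ) := by
  have hg0 : ∀ i, constantCoeff (grad (PP α β γ) i) = 0 := by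
    intro i
    simp [grad, pderiv_PP, constantCoeff_uu]
  have hF0 : ∀ i, constantCoeff (X i - grad (PP α β γ) i) = 0 := by
    intro i; simp [hg0]
  have hG0 : ∀ i, constantCoeff (X i + grad (PP α β γ) i) = 0 := by
    intro i; simp [hg0]
  have hF := hasSubst_of_constantCoeff_zero hF0
  have hG := hasSubst_of_constantCoeff_zero hG0
  refine ⟨?_, ?_, ?_, hF0, hG0, ?_, ?_⟩
  · exact le_trans (by norm_num) (le_order_pow_of_constantCoeff_eq_zero 3 (constantCoeff_uu α β γ))
  · have : (hes (PP α β γ)).map constantCoeff = 0 := by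
      ext i j
      simp [hes_PP, constantCoeff_uu]
    rw [this]; exact IsNilpotent.zero
  · simp [PP, constantCoeff_uu]
  · intro i
    rw [subst_sub hG, subst_X hG, subst_grad haa hbb hcc hab hac hbc (3 * uu α β γ ^ 2) hG
      (fun j => by simp only [grad, pderiv_PP])]
    ring
  · intro i
    rw [subst_add hF, subst_X hF, subst_grad haa hbb hcc hab hac hbc (-(3 * uu α β γ ^ 2)) hF
      (fun j => by simp only [grad, pderiv_PP]; ring)]
    ring

include haa hbb hcc hab hac hbc in
theorem trace_hes_PP : (hes (PP α β γ)).trace = -6 * uu α β γ ^ 2 * ww α := by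
  have hba : ∑ i, β i * α i = 2 := by rw [← hab]; simp [mul_comm]
  have hca : ∑ i, γ i * α i = 0 := by rw [← hac]; simp [mul_comm]
  have hcb : ∑ i, γ i * β i = 0 := by rw [← hbc]; simp [mul_comm]
  have h2 : (C (2 : ℂ) : MvPowerSeries (Fin n) ℂ) = 2 := by simp [map_ofNat]
  have h1 : ∑ i, du α β γ i * du α β γ i = 0 := by
    have : ∑ i, du α β γ i * du α β γ i = ∑ i, C (β i) * du α β γ i
        - 2 * ss α γ * ∑ i, C (γ i) * du α β γ i - ss α γ ^ 2 * ∑ i, C (α i) * du α β γ i := by
      simp only [Finset.mul_sum, ← Finset.sum_sub_distrib]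
      refine Finset.sum_congr rfl fun i _ => ?_
      nth_rewrite 1 [du]
      ring
    rw [this, sum_C_mul_du, sum_C_mul_du, sum_C_mul_du, hbb, hbc, hba, hcb, hcc, hca, hab, hac,
      haa, h2]
    simp; ring
  have h3 : ∑ i, (C (γ i) + C (α i) * ss α γ) * (C (γ i) + C (α i) * ss α γ) = 1 := by
    have : ∑ i, (C (γ i) + C (α i) * ss α γ) * (C (γ i) + C (α i) * ss α γ) =
        C (∑ i, γ i * γ i) + 2 * C (∑ i, α i * γ i) * ss α γ
          + C (∑ i, α i * α i) * ss α γ ^ 2 := by
      simp only [map_sum, map_mul, Finset.mul_sum, Finset.sum_mul, ← Finset.sum_add_distrib]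
      refine Finset.sum_congr rfl fun i _ => ?_
      ring
    rw [this, hcc, hac, haa]; simp
  have : (hes (PP α β γ)).trace = 6 * uu α β γ * ∑ i, du α β γ i * du α β γ i
      - 6 * uu α β γ ^ 2 * ww α *
        ∑ i, (C (γ i) + C (α i) * ss α γ) * (C (γ i) + C (α i) * ss α γ) := by
    simp only [Matrix.trace, Matrix.diag, hes_PP, Finset.mul_sum, ← Finset.sum_sub_distrib]
    refine Finset.sum_congr rfl fun i _ => ?_
    ring
  rw [this, h1, h3]; ring

include haa hbb hcc hab hac hbc in
theorem not_isHN_PP : ¬ IsHN (PP α β γ) := by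
  intro h
  have h1 := (Matrix.isNilpotent_trace_of_isNilpotent h).eq_zero
  rw [trace_hes_PP haa hbb hcc hab hac hbc] at h1
  have hw : ww α ≠ 0 := by
    intro h0
    have := ww_mul α
    rw [h0, zero_mul] at this
    exact zero_ne_one this
  have hu : uu α β γ ≠ 0 := by
    intro h0
    have h2 : ∀ i, β i = 0 := by
      intro i
      have := pderiv_uu α β γ i
      rw [h0, map_zero] at this
      have h3 := congrArg constantCoeff this
      simp [du, constantCoeff_ss] at h3
      exact h3.symm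
    simp [h2] at hab
  have h6 : (-6 : MvPowerSeries (Fin n) ℂ) ≠ 0 := by
    intro h0
    have := congrArg constantCoeff h0
    simp [map_ofNat] at this
  exact mul_ne_zero (mul_ne_zero h6 (pow_ne_zero 2 hu)) hw h1

end

theorem exists_counterexample (n : ℕ) (hn : 3 ≤ n) :
    ∃ P : MvPowerSeries (Fin n) ℂ, IsSelfInverting P ∧ ¬ IsHN P := by
  obtain ⟨m, rfl⟩ := Nat.exists_eq_add_of_le' hn
  let α : Fin (m + 3) → ℂ := Fin.cons 1 (Fin.cons Complex.I (Fin.cons 0 fun _ => 0))
  let β : Fin (m + 3) → ℂ := Fin.cons 1 (Fin.cons (-Complex.I) (Fin.cons 0 fun _ => 0))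
  let γ : Fin (m + 3) → ℂ := Fin.cons 0 (Fin.cons 0 (Fin.cons 1 fun _ => 0))
  have haa : ∑ i, α i * α i = 0 := by simp [α, Fin.sum_univ_succ]
  have hbb : ∑ i, β i * β i = 0 := by simp [β, Fin.sum_univ_succ]
  have hcc : ∑ i, γ i * γ i = 1 := by simp [γ, Fin.sum_univ_succ]
  have hab : ∑ i, α i * β i = 2 := by simp [α, β, Fin.sum_univ_succ]; norm_num
  have hac : ∑ i, α i * γ i = 0 := by simp [α, γ, Fin.sum_univ_succ]
  have hbc : ∑ i, β i * γ i = 0 := by simp [β, γ, Fin.sum_univ_succ]
  exact ⟨PP α β γ, selfInverting_PP haa hbb hcc hab hac hbc, not_isHN_PP haa hbb hcc hab hac hbc⟩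

end Pool.Agent.MP_e6e7b2_al

end

-- part MP_e6e7b2_al.Poly
section

/-!
Self-inverting polynomials are Hessian nilpotent.
-/

namespace Pool.Agent.MP_e6e7b2_al

open MvPolynomial

variable {n : ℕ}

lemma pderiv_aeval (g : Fin n → MvPolynomial (Fin n) ℂ) (k : Fin n) (q : MvPolynomial (Fin n) ℂ) :
    pderiv k (aeval g q) = ∑ j, aeval g (pderiv j q) * pderiv k (g j) := by
  induction q using MvPolynomial.induction_on with
  | C a => simp
  | add p q hp hq => simp only [map_add, hp, hq, add_mul, Finset.sum_add_distrib]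
  | mul_X p i hp =>
    simp only [map_mul, aeval_X, Derivation.leibniz, smul_eq_mul, hp, map_add, add_mul,
      Finset.sum_add_distrib, Finset.mul_sum]
    congr 1
    · rw [Finset.sum_eq_single i]
      · simp
      · intro j _ hj
        simp [pderiv_X_of_ne hj.symm]
      · simp
    · refine Finset.sum_congr rfl fun j _ => ?_
      ring

lemma aeval_iterate (H : Fin n → MvPolynomial (Fin n) ℂ)
    (h : ∀ i, aeval (fun j => X j + H j) (H i) = H i) (m : ℕ) :
    ∀ i, aeval (fun j => X j + (m : MvPolynomial (Fin n) ℂ) * H j) (H i) = H i := by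
  induction m with
  | zero => intro i; simp
  | succ m ih =>
    intro i
    have h1 := congrArg (aeval (fun j => X j + H j)) (ih i)
    rw [← AlgHom.comp_apply, comp_aeval, h] at h1
    convert h1 using 4 with j
    simp only [map_add, map_mul, aeval_X, map_natCast, h]
    push_cast
    ring

lemma det_one_add_of_nilpotent {N : Matrix (Fin n) (Fin n) ℂ} (hN : IsNilpotent N) (c : ℂ) :
    (1 + c • N).det = 1 := by
  have h1 := Matrix.isUnit_charpolyRev_of_isNilpotent hN
  obtain ⟨r, -, hr⟩ := Polynomial.isUnit_iff.mp h1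
  have h2 : r = 1 := by
    have := Matrix.eval_charpolyRev (M := N)
    rw [← hr] at this
    simpa using this
  have h3 := congrArg (Polynomial.evalRingHom (-c)) hr
  rw [Matrix.charpolyRev, RingHom.map_det] at h3
  simp only [Polynomial.coe_evalRingHom, Polynomial.eval_C, h2] at h3
  rw [h3]
  congr 1
  ext i j
  simp [Matrix.one_apply]
  split_ifs <;> simp [mul_comm]

lemma nilpotent_of_det {R : Type*} [CommRing R] [IsDomain R] [CharZero R]
    (J : Matrix (Fin n) (Fin n) R) (h : ∀ m : ℕ, (1 + (m : R) • J).det = 1) : IsNilpotent J := by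
  have h1 : J.charpolyRev = 1 := by
    apply Polynomial.eq_of_infinite_eval_eq
    refine Set.infinite_of_injective_forall_mem (f := fun m : ℕ => -(m : R)) ?_ ?_
    · intro a b hab
      simpa using hab
    · intro m
      simp only [Set.mem_ofPred_eq, Polynomial.eval_one]
      rw [← h m, Matrix.charpolyRev, ← Polynomial.coe_evalRingHom, RingHom.map_det]
      congr 1
      ext i j
      simp [Matrix.one_apply]
      split_ifs <;> simp [mul_comm]
  have h2 : J.charpoly = Polynomial.X ^ n := by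
    have h3 := Matrix.reverse_charpoly J
    rw [h1] at h3
    have h4 : J.charpoly.natDegree = n := by simp [Matrix.charpoly_natDegree_eq_dim]
    ext k
    by_cases hk : k ≤ n
    · have h5 := Polynomial.coeff_reverse J.charpoly (n - k)
      rw [h3, h4, Polynomial.revAt_le (Nat.sub_le _ _), Nat.sub_sub_self hk] at h5
      rw [← h5, Polynomial.coeff_one, Polynomial.coeff_X_pow]
      have : (n - k = 0) ↔ (k = n) := by omega
      simp [this]
    · rw [Polynomial.coeff_eq_zero_of_natDegree_lt (by omega), Polynomial.coeff_X_pow,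
        if_neg (by omega)]
  refine ⟨n, ?_⟩
  have := Matrix.aeval_self_charpoly J
  rw [h2] at this
  simpa using this

theorem quasiTranslation_nilpotent (H : Fin n → MvPolynomial (Fin n) ℂ)
    (h : ∀ i, aeval (fun j => X j + H j) (H i) = H i)
    (h0 : IsNilpotent ((Matrix.of fun i k => pderiv k (H i)).map constantCoeff)) :
    IsNilpotent (Matrix.of fun i k => pderiv k (H i)) := by
  set J : Matrix (Fin n) (Fin n) (MvPolynomial (Fin n) ℂ) := Matrix.of fun i k => pderiv k (H i)
    with hJ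
  apply nilpotent_of_det
  intro m
  set g : Fin n → MvPolynomial (Fin n) ℂ := fun j => X j + (m : MvPolynomial (Fin n) ℂ) * H j
    with hg
  have h1 : J.map (aeval g) * (1 + (m : MvPolynomial (Fin n) ℂ) • J) = J := by
    ext1 i k
    have h2 := congrArg (pderiv k) (aeval_iterate H h m i)
    rw [pderiv_aeval] at h2
    rw [hJ, Matrix.of_apply, ← h2, Matrix.mul_apply]
    refine Finset.sum_congr rfl fun j _ => ?_
    congr 1
    have h3 : pderiv k (m : MvPolynomial (Fin n) ℂ) = 0 := by
      rw [← map_natCast (C : ℂ →+* MvPolynomial (Fin n) ℂ), pderiv_C]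
    simp [Derivation.leibniz, h3, Matrix.one_apply, pderiv_X, Pi.single_apply]
  have h2 : (1 - (m : MvPolynomial (Fin n) ℂ) • J.map (aeval g)) *
      (1 + (m : MvPolynomial (Fin n) ℂ) • J) = 1 := by
    rw [sub_mul, Matrix.smul_mul, h1]
    simp
  have h3 : IsUnit (1 + (m : MvPolynomial (Fin n) ℂ) • J).det := by
    have := congrArg Matrix.det h2
    rw [Matrix.det_mul, Matrix.det_one] at this
    exact IsUnit.of_mul_eq_one_right _ this
  obtain ⟨r, -, hr⟩ := isUnit_iff_eq_C_of_isReduced.mp h3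
  have h4 := congrArg constantCoeff hr
  rw [RingHom.map_det, constantCoeff_C] at h4
  have h5 := det_one_add_of_nilpotent h0 (m : ℂ)
  have h6 : r = 1 := by
    rw [← h4, ← h5]
    congr 1
    ext i j
    simp [Matrix.one_apply]
  rw [hr, h6, map_one]

theorem isHN_of_polynomial (p : MvPolynomial (Fin n) ℂ)
    (hp : IsSelfInverting (p : MvPowerSeries (Fin n) ℂ)) : IsHN (p : MvPowerSeries (Fin n) ℂ) := by
  obtain ⟨-, h0, -, -, -, h1, -⟩ := hp
  let ι : MvPolynomial (Fin n) ℂ →ₐ[ℂ] MvPowerSeries (Fin n) ℂ :=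
    MvPolynomial.coeToMvPowerSeries.algHom ℂ
  have hι : ∀ q : MvPolynomial (Fin n) ℂ, ι q = (q : MvPowerSeries (Fin n) ℂ) := by
    intro q
    simp [ι]
  have hgrad : ∀ i, grad (p : MvPowerSeries (Fin n) ℂ) i = ι (pderiv i p) := by
    intro i
    rw [hι, grad, MvPowerSeries.pderiv_coe]
  have hX : ∀ i, (MvPowerSeries.X i : MvPowerSeries (Fin n) ℂ) = ι (X i) := by
    intro i
    rw [hι, coe_X]
  have hhes : hes (p : MvPowerSeries (Fin n) ℂ) =
      ((Matrix.of fun i k => pderiv k (pderiv i p)).map ι).transpose := by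
    ext1 i j
    simp only [hes, Matrix.of_apply, Matrix.transpose_apply, Matrix.map_apply, hι,
      MvPowerSeries.pderiv_coe]
  have h2 : ∀ i, aeval (fun j => X j + pderiv j p) (pderiv i p) = pderiv i p := by
    intro i
    have h3 := h1 i
    simp only [hgrad, hX, ← map_add, ← map_sub] at h3
    rw [hι (X i - pderiv i p), MvPowerSeries.subst_coe, ← comp_aeval, AlgHom.comp_apply, hι, hι,
      coe_inj] at h3
    simp only [map_sub, aeval_X] at h3
    linear_combination -h3
  have h4 : IsNilpotent ((Matrix.of fun i k => pderiv k (pderiv i p)).map constantCoeff) := by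
    rw [← Matrix.isNilpotent_transpose_iff]
    convert h0 using 1
    rw [hhes]
    ext i j
    simp only [Matrix.transpose_apply, Matrix.map_apply, Matrix.of_apply, hι]
    rfl
  have h5 := quasiTranslation_nilpotent (fun i => pderiv i p) h2 h4
  unfold IsHN
  rw [hhes, Matrix.isNilpotent_transpose_iff]
  exact h5.map (ι.mapMatrix)

end Pool.Agent.MP_e6e7b2_al

end
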